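import Pool.Agent.W480.Amal.Main

set_option autoImplicit false

open MvPolynomial Pool.Agent.W480.Amal

namespace Pool.Agent.Results.MP_eea824_ag.CubicCounterexample

/-- Degree-preserving amalgamation of real zero polynomials with two shared variables fails for
`d = 3`, `m = n = 1`: there are real zero polynomials `p ∈ ℝ[x₁, x₂, y]` and `q ∈ ℝ[x₁, x₂, z]` of
degree at most three with `p(x, 0) = q(x, 0)`, such that no real zero polynomial
`r ∈ ℝ[x₁, x₂, y, z]` of degree at most three satisfies `r(x, y, 0) = p` and `r(x, 0, z) = q`. -/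
theorem result : ∃ p q : MvPolynomial (Fin 2 ⊕ Fin 1) ℝ,
    RealZero p ∧ RealZero q ∧ p.totalDegree ≤ 3 ∧ q.totalDegree ≤ 3 ∧
    aeval (Sum.elim X (fun _ => 0) : Fin 2 ⊕ Fin 1 → MvPolynomial (Fin 2) ℝ) p =
      aeval (Sum.elim X (fun _ => 0) : Fin 2 ⊕ Fin 1 → MvPolynomial (Fin 2) ℝ) q ∧
    ¬ ∃ r : MvPolynomial (Fin 2 ⊕ Fin 1 ⊕ Fin 1) ℝ, RealZero r ∧ r.totalDegree ≤ 3 ∧
      aeval (Sum.elim (fun i => X (Sum.inl i)) (Sum.elim (fun j => X (Sum.inr j)) (fun _ => 0)) :
        Fin 2 ⊕ Fin 1 ⊕ Fin 1 → MvPolynomial (Fin 2 ⊕ Fin 1) ℝ) r = p ∧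
      aeval (Sum.elim (fun i => X (Sum.inl i)) (Sum.elim (fun _ => 0) (fun j => X (Sum.inr j))) :
        Fin 2 ⊕ Fin 1 ⊕ Fin 1 → MvPolynomial (Fin 2 ⊕ Fin 1) ℝ) r = q := by
  refine ⟨pp, qq, pp_real, qq_real, pp_deg, qq_deg, ?_, ?_⟩
  · simp only [pp, qq, P, Q, map_mul, map_add, map_sub, map_pow, map_one, aeval_X, map_ofNat,
      Sum.elim_inl, Sum.elim_inr]
    ring
  · rintro ⟨r, hr, hdeg, hp, hq⟩
    obtain ⟨a, b, c, d, e, hmix⟩ := mixed r hdeg
    have h1 : ∀ u v y, eval (pt4 u v y 0) r = 8 * P u v y := by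
      intro u v y
      have h := congrArg (eval (pt3 u v y)) hp
      rw [← MvPolynomial.coe_aeval_eq_eval, RingHom.coe_coe, ← AlgHom.comp_apply, comp_aeval] at h
      have e1 : (fun i => (aeval (pt3 u v y)) ((Sum.elim (fun i => X (Sum.inl i))
          (Sum.elim (fun j => X (Sum.inr j)) (fun _ => 0)) :
          Fin 2 ⊕ Fin 1 ⊕ Fin 1 → MvPolynomial (Fin 2 ⊕ Fin 1) ℝ) i)) = pt4 u v y 0 := by
        funext i
        rcases i with i | i | i
        · simp [pt3, pt4]
        · simp [pt3, pt4]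
        · fin_cases i
          simp [pt4]
      rw [e1] at h
      rw [← MvPolynomial.coe_aeval_eq_eval, RingHom.coe_coe, h]
      simp [pp, P, pt3]
    have h2 : ∀ u v z, eval (pt4 u v 0 z) r = Q u v z := by
      intro u v y
      have h := congrArg (eval (pt3 u v y)) hq
      rw [← MvPolynomial.coe_aeval_eq_eval, RingHom.coe_coe, ← AlgHom.comp_apply, comp_aeval] at h
      have e1 : (fun i => (aeval (pt3 u v y)) ((Sum.elim (fun i => X (Sum.inl i))
          (Sum.elim (fun _ => 0) (fun j => X (Sum.inr j))) :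
          Fin 2 ⊕ Fin 1 ⊕ Fin 1 → MvPolynomial (Fin 2 ⊕ Fin 1) ℝ) i)) = pt4 u v 0 y := by
        funext i
        rcases i with i | i | i
        · simp [pt3, pt4]
        · fin_cases i
          simp [pt4]
        · simp [pt3, pt4]
      rw [e1] at h
      rw [← MvPolynomial.coe_aeval_eq_eval, RingHom.coe_coe, h]
      simp [qq, Q, pt3]
    have h3 : ∀ u v y z, eval (pt4 u v y z) r = 8 * P u v y + Q u v z - 8 * P u v 0 +
        y * z * (a + b * u + c * v + d * y + e * z) := by
      intro u v y z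
      have h := hmix u v y z
      rw [h1, h2, h1] at h
      linarith
    apply no_mixed a b c d e
    intro u v y z l hl
    apply hr (pt4 u v y z) l
    rw [← aeval_line]
    have h4 : line (pt4 u v y z) r = Polynomial.C 8 + Polynomial.C (3 * z) * Polynomial.X +
        Polynomial.C (-24 * y ^ 2 - 30 * z ^ 2 - 56 * (u ^ 2 + u * v + v ^ 2) + a * y * z) *
        Polynomial.X ^ 2 +
        Polynomial.C (16 * y ^ 3 + 48 * y * (u ^ 2 + u * v + v ^ 2) + 19 * z ^ 3 -
          88 * z * (u ^ 2 + u * v + v ^ 2) - 80 * (u * v * (u + v)) +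
          y * z * (b * u + c * v + d * y + e * z)) * Polynomial.X ^ 3 := by
      apply Polynomial.funext
      intro t
      rw [eval_line]
      have e1 : (fun i => t * pt4 u v y z i) = pt4 (t * u) (t * v) (t * y) (t * z) := by
        funext i
        rcases i with i | i | i
        · fin_cases i <;> simp [pt4]
        · simp [pt4]
        · simp [pt4]
      rw [e1, h3]
      simp only [P, Q, Polynomial.eval_add, Polynomial.eval_mul, Polynomial.eval_C,
        Polynomial.eval_X, Polynomial.eval_pow]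
      ring
    have h5 : ∀ c1 c2 c3 : ℝ, Polynomial.aeval l (Polynomial.C 8 + Polynomial.C c1 * Polynomial.X +
        Polynomial.C c2 * Polynomial.X ^ 2 + Polynomial.C c3 * Polynomial.X ^ 3) =
        8 + (c1 : ℂ) * l + (c2 : ℂ) * l ^ 2 + (c3 : ℂ) * l ^ 3 := by
      intro c1 c2 c3
      simp
    rw [h4, h5]
    exact hl

end Pool.Agent.Results.MP_eea824_ag.CubicCounterexample
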